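import Mathlib

namespace Pool.Agent.H172.Form

/-- A formation of finite groups (the groups live in `Type`). -/
structure Formation where
  mem : (G : Type) → [Group G] → Prop
  fin : ∀ (G : Type) [Group G], mem G → Finite G
  iso : ∀ (G H : Type) [Group G] [Group H], (G ≃* H) → mem G → mem H
  quot : ∀ (G : Type) [Group G] (N : Subgroup G) [N.Normal], mem G → mem (G ⧸ N)
  inter : ∀ (G : Type) [Group G] [Finite G] (N₁ N₂ : Subgroup G) [N₁.Normal] [N₂.Normal],
    mem (G ⧸ N₁) → mem (G ⧸ N₂) → mem (G ⧸ (N₁ ⊓ N₂))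

/-- Closed under normal subgroups. -/
def Formation.SnClosed (F : Formation) : Prop :=
  ∀ (G : Type) [Group G], F.mem G → ∀ (N : Subgroup G), N.Normal → F.mem N

/-- Every subformation of `F` is closed under normal subgroups. -/
def Formation.AllSub (F : Formation) : Prop :=
  ∀ H : Formation, (∀ (G : Type) [Group G], H.mem G → F.mem G) → H.SnClosed

/-- `M` is (isomorphic to) a quotient of `X`. -/
def IsQuot (M X : Type) [Group M] [Group X] : Prop := ∃ f : X →* M, Function.Surjective f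

/-- No two nontrivial normal subgroups commute. For finite nontrivial groups this means: there is
exactly one minimal normal subgroup and it is not abelian. -/
def IsPrimeGroup (M : Type) [Group M] : Prop :=
  ∀ A B : Subgroup M, A.Normal → B.Normal → A ≠ ⊥ → B ≠ ⊥ → ⁅A, B⁆ ≠ ⊥

theorem Formation.mem_of_surj (F : Formation) {G H : Type} [Group G] [Group H] (f : G →* H)
    (hf : Function.Surjective f) (hG : F.mem G) : F.mem H :=
  F.iso _ _ (QuotientGroup.quotientKerEquivOfSurjective f hf) (F.quot G f.ker hG)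

/-- The subformation of groups without quotient `M`. -/
def noQuot (F : Formation) (M : Type) [Group M] (hM : IsPrimeGroup M) : Formation where
  mem X _ := F.mem X ∧ ¬ IsQuot M X
  fin X _ h := F.fin X h.1
  iso G H _ _ e h := ⟨F.iso G H e h.1, fun ⟨f, hf⟩ => h.2
    ⟨f.comp e.toMonoidHom, hf.comp e.surjective⟩⟩
  quot G _ N _ h := ⟨F.quot G N h.1, fun ⟨f, hf⟩ => h.2
    ⟨f.comp (QuotientGroup.mk' N), hf.comp (QuotientGroup.mk'_surjective N)⟩⟩
  inter G _ _ N₁ N₂ _ _ h₁ h₂ := by
    refine ⟨F.inter G N₁ N₂ h₁.1 h₂.1, ?_⟩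
    rintro ⟨f, hf⟩
    set g : G →* M := f.comp (QuotientGroup.mk' (N₁ ⊓ N₂)) with hg
    have hgs : Function.Surjective g := hf.comp (QuotientGroup.mk'_surjective _)
    have key : ∀ N : Subgroup G, N.Normal → N.map g = ⊥ → ∀ (hN : N.Normal), IsQuot M (G ⧸ N) := by
      intro N _ hb hN
      refine ⟨QuotientGroup.lift N g ?_, ?_⟩
      · intro x hx
        have : g x ∈ N.map g := Subgroup.mem_map_of_mem g hx
        rw [hb] at this
        exact Subgroup.mem_bot.mp this
      · intro m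
        obtain ⟨x, hx⟩ := hgs m
        exact ⟨QuotientGroup.mk x, hx⟩
    have a₁ : N₁.map g ≠ ⊥ := fun hb => h₁.2 (key N₁ inferInstance hb inferInstance)
    have a₂ : N₂.map g ≠ ⊥ := fun hb => h₂.2 (key N₂ inferInstance hb inferInstance)
    have n₁ : (N₁.map g).Normal := Subgroup.Normal.map inferInstance g hgs
    have n₂ : (N₂.map g).Normal := Subgroup.Normal.map inferInstance g hgs
    apply hM _ _ n₁ n₂ a₁ a₂
    rw [← Subgroup.map_commutator]
    rw [Subgroup.map_eq_bot_iff]
    intro x hx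
    have hx' : x ∈ N₁ ⊓ N₂ := Subgroup.commutator_le_inf N₁ N₂ hx
    rw [MonoidHom.mem_ker, hg, MonoidHom.comp_apply]
    have : QuotientGroup.mk' (N₁ ⊓ N₂) x = 1 := (QuotientGroup.eq_one_iff x).mpr hx'
    rw [this, map_one]

theorem prime_quotient (F : Formation) (h : F.AllSub) (G : Type) [Group G] (hG : F.mem G)
    (N : Subgroup G) (hN : N.Normal) (M : Type) [Group M] (hM : IsPrimeGroup M)
    (q : IsQuot M N) : IsQuot M G := by
  by_contra hq
  exact (h (noQuot F M hM) (fun G _ hG => hG.1) G ⟨hG, hq⟩ N hN).2 q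

/-- In a finite group all of whose normal subgroups are perfect, every nontrivial element is
outside some normal subgroup with prime quotient. -/
theorem exists_prime (N : Type) [Group N] [Finite N]
    (hp : ∀ K : Subgroup N, K.Normal → ⁅K, K⁆ = K) (x : N) (hx : x ≠ 1) :
    ∃ Y : Subgroup N, ∃ _ : Y.Normal, x ∉ Y ∧ IsPrimeGroup (N ⧸ Y) := by
  classical
  have hfin : {Y : Subgroup N | Y.Normal ∧ x ∉ Y}.Finite := Set.toFinite _
  obtain ⟨Y, hY⟩ := hfin.exists_maximal ⟨⊥, inferInstance, by simpa using hx⟩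
  obtain ⟨⟨hYn, hxY⟩, hmax⟩ := hY
  refine ⟨Y, hYn, hxY, ?_⟩
  intro A B hA hB hA0 hB0 hAB
  have big : ∀ A : Subgroup (N ⧸ Y), A.Normal → A ≠ ⊥ → x ∈ A.comap (QuotientGroup.mk' Y) := by
    intro A hA hA0
    by_contra hxA
    have hle : Y ≤ A.comap (QuotientGroup.mk' Y) := by
      intro y hy
      rw [Subgroup.mem_comap]
      have : QuotientGroup.mk' Y y = 1 := (QuotientGroup.eq_one_iff y).mpr hy
      rw [this]
      exact A.one_mem
    have := hmax ⟨hA.comap _, hxA⟩ hle
    apply hA0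
    rw [eq_bot_iff]
    intro a ha
    obtain ⟨z, rfl⟩ := QuotientGroup.mk'_surjective Y a
    have hz : z ∈ Y := this ha
    exact Subgroup.mem_bot.mpr ((QuotientGroup.eq_one_iff z).mpr hz)
  set C : Subgroup N := (A ⊓ B).comap (QuotientGroup.mk' Y) with hC
  have hCn : C.Normal := by
    have : (A ⊓ B).Normal := inferInstance
    exact this.comap _
  have hxC : x ∈ C := ⟨big A hA hA0, big B hB hB0⟩
  have hCC := hp C hCn
  have : ⁅C, C⁆ ≤ Y := by
    have h1 : (⁅C, C⁆).map (QuotientGroup.mk' Y) ≤ ⁅A, B⁆ := by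
      rw [Subgroup.map_commutator]
      apply Subgroup.commutator_mono
      · rw [Subgroup.map_le_iff_le_comap]
        exact Subgroup.comap_mono inf_le_left
      · rw [Subgroup.map_le_iff_le_comap]
        exact Subgroup.comap_mono inf_le_right
    rw [hAB] at h1
    intro z hz
    have : QuotientGroup.mk' Y z ∈ (⊥ : Subgroup (N ⧸ Y)) := h1 (Subgroup.mem_map_of_mem _ hz)
    exact (QuotientGroup.eq_one_iff z).mp (Subgroup.mem_bot.mp this)
  rw [hCC] at this
  exact hxY (this hxC)

/-- Every subnormal subgroup is perfect; for finite groups this means that there is no abelian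
composition factor. -/
def NoAbelian (G : Type) [Group G] : Prop :=
  ∀ K : Subgroup G, K.IsSubnormal → ⁅K, K⁆ = K

theorem NoAbelian.sub {G : Type} [Group G] (h : NoAbelian G) (N : Subgroup G) (hN : N.Normal) :
    NoAbelian N := by
  intro K hK
  have hK' : (K.map N.subtype).IsSubnormal := by
    have hNs : N.IsSubnormal := Subgroup.Normal.isSubnormal hN
    exact Subgroup.IsSubnormal.trans' hK hNs
  have := h _ hK'
  rw [← Subgroup.map_commutator] at this
  exact Subgroup.map_injective N.subtype_injective this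

theorem allSub_of_prime (F : Formation) (hF : ∀ (G : Type) [Group G], F.mem G → NoAbelian G)
    (hq : ∀ (G : Type) [Group G], F.mem G → ∀ N : Subgroup G, N.Normal → ∀ (M : Type) [Group M],
      IsPrimeGroup M → IsQuot M N → IsQuot M G) : F.AllSub := by
  intro H hHF G _ hG N hN
  classical
  have hFG := hHF G hG
  have hfin : Finite G := F.fin G hFG
  have hNA : NoAbelian N := (hF G hFG).sub N hN
  have hset : {Z : Subgroup N | ∃ _ : Z.Normal, H.mem (N ⧸ Z)}.Finite := Set.toFinite _
  have htop : (⊤ : Subgroup N) ∈ {Z : Subgroup N | ∃ _ : Z.Normal, H.mem (N ⧸ Z)} := by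
    refine ⟨inferInstance, ?_⟩
    have h1 : H.mem (G ⧸ (⊤ : Subgroup G)) := H.quot G ⊤ hG
    have f : G ⧸ (⊤ : Subgroup G) →* N ⧸ (⊤ : Subgroup N) := 1
    refine H.mem_of_surj (1 : G ⧸ (⊤ : Subgroup G) →* N ⧸ (⊤ : Subgroup N)) ?_ h1
    intro x
    obtain ⟨y, rfl⟩ := QuotientGroup.mk'_surjective _ x
    refine ⟨1, ?_⟩
    have : QuotientGroup.mk' (⊤ : Subgroup N) y = 1 := (QuotientGroup.eq_one_iff y).mpr trivial
    rw [this, map_one]
  obtain ⟨Z, ⟨⟨hZn, hZ⟩, hmin⟩⟩ := hset.exists_minimal ⟨_, htop⟩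
  have hZbot : Z = ⊥ := by
    by_contra hne
    obtain ⟨x, hx, hx1⟩ : ∃ x ∈ Z, x ≠ 1 := by
      by_contra hcon
      push Not at hcon
      exact hne (by rw [eq_bot_iff]; intro y hy; exact Subgroup.mem_bot.mpr (hcon y hy))
    obtain ⟨Y, hYn, hxY, hYp⟩ := exists_prime N (fun K hK => hNA K (Subgroup.Normal.isSubnormal hK))
      x hx1
    have h1 : IsQuot (N ⧸ Y) G :=
      hq G hFG N hN (N ⧸ Y) hYp ⟨QuotientGroup.mk' Y, QuotientGroup.mk'_surjective Y⟩
    obtain ⟨f, hf⟩ := h1
    have h2 : H.mem (N ⧸ Y) := H.mem_of_surj f hf hG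
    have h3 : H.mem (N ⧸ (Z ⊓ Y)) := H.inter N Z Y hZ h2
    have h4 := hmin ⟨inferInstance, h3⟩ inf_le_left
    exact hxY ((h4 hx).2)
  subst hZbot
  exact H.iso _ _ QuotientGroup.quotientBot hZ

end Pool.Agent.H172.Form
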